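import Mathlib
import Pool.Agent.Helper800.Michael

set_option autoImplicit false

/-!
# The free topological module over an arbitrary discrete ring on a metrizable space

For every ring `K` with the discrete topology (of any cardinality, commutative or not, of any
characteristic) and every metrizable space `X` the free topological `K`-module on `X` exists and is
paracompact.  For `K = ℝ` this is Q1.

The coarser metrizable topology on the free module is given by an explicit invariant metric: for a
centre `p` let `A p v` be the set of the radii `r` in `(0,1)` for which the sum of the coefficients of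
`v` over the open ball of radius `r` about `p` is not zero; the norm of `v` is the supremum over `p` of
the measure of `A p v`.
-/

namespace Pool.Agent.Results.MP_f94ac9_gt.DiscreteRings

open Set Topology Filter MeasureTheory Pool.Agent.Helper800.Michael

universe u v w

/-- `L` is a topological linear space over the ring `K` with the discrete topology: a `K`-module with a
Hausdorff topology for which addition is (jointly) continuous and multiplication by each fixed element
of `K` is continuous. -/
structure IsTLS (K : Type v) (L : Type w) [Ring K] [AddCommGroup L] [Module K L]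
    [TopologicalSpace L] : Prop where
  t2 : T2Space L
  add : Continuous fun p : L × L => p.1 + p.2
  smul : ∀ r : K, Continuous fun v : L => r • v

/-- `i : X → L` makes `L` the free topological linear space over the discrete ring `K` on `X`: `L` is a
topological linear space over `K`, `i` is a topological embedding whose image is a basis, and every
continuous map from `X` to a topological linear space over `K` extends uniquely to a continuous
`K`-linear map. -/
structure IsFree (K : Type v) (X : Type u) (L : Type w) [Ring K] [TopologicalSpace X]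
    [AddCommGroup L] [Module K L] [TopologicalSpace L] (i : X → L) : Prop where
  tls : IsTLS K L
  emb : IsEmbedding i
  indep : LinearIndependent K i
  span : Submodule.span K (range i) = ⊤
  univ : ∀ (E : Type w) [AddCommGroup E] [Module K E] [TopologicalSpace E], IsTLS K E →
    ∀ f : X → E, Continuous f → ∃! F : L →ₗ[K] E, Continuous F ∧ ∀ x, F (i x) = f x

theorem IsTLS.group {K : Type v} {L : Type w} [Ring K] [AddCommGroup L] [Module K L]
    [TopologicalSpace L] (h : IsTLS K L) : IsTopologicalAddGroup L where
  continuous_add := h.add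
  continuous_neg := by
    have := h.smul (-1)
    simpa only [neg_smul, one_smul] using this

/-! ### The norm -/

section norm

variable {K : Type v} {X : Type u} {L : Type w} [Ring K] [MetricSpace X] [AddCommGroup L]
  [Module K L] (b : Module.Basis X K L)

open Classical in
/-- The sum of the coefficients over the open ball of radius `r` about `p`. -/
noncomputable def S (p : X) (r : ℝ) : L →ₗ[K] K :=
  (Finsupp.linearCombination K (fun x : X => if dist x p < r then (1 : K) else 0)) ∘ₗ
    b.repr.toLinearMap

open Classical in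
theorem S_apply (p : X) (r : ℝ) (v : L) :
    S b p r v = ∑ x ∈ (b.repr v).support, if dist x p < r then b.repr v x else 0 := by
  show Finsupp.linearCombination K _ (b.repr v) = _
  rw [Finsupp.linearCombination_apply, Finsupp.sum]
  refine Finset.sum_congr rfl fun x _ => ?_
  split_ifs <;> simp

open Classical in
theorem S_smul_basis (p : X) (r : ℝ) (c : K) (x : X) :
    S b p r (c • b x) = if dist x p < r then c else 0 := by
  show Finsupp.linearCombination K _ (b.repr (c • b x)) = _
  rw [map_smul, map_smul, b.repr_self, Finsupp.linearCombination_single]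
  split_ifs <;> simp

/-- The radii for which the sum over the ball is not zero. -/
def A (p : X) (v : L) : Set ℝ := {r | 0 < r ∧ r < 1 ∧ S b p r v ≠ 0}

theorem vol_A_le (p : X) (v : L) : volume (A b p v) ≤ 1 := by
  have h : A b p v ⊆ Ioo 0 1 := fun r hr => ⟨hr.1, hr.2.1⟩
  refine (measure_mono h).trans ?_
  rw [Real.volume_Ioo, sub_zero, ENNReal.ofReal_one]

/-- The norm with values in the extended nonnegative reals. -/
noncomputable def D (v : L) : ENNReal := ⨆ p, volume (A b p v)

theorem D_le_one (v : L) : D b v ≤ 1 := iSup_le fun p => vol_A_le b p v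

theorem D_ne_top (v : L) : D b v ≠ ⊤ := ((D_le_one b v).trans_lt ENNReal.one_lt_top).ne

theorem D_zero : D b 0 = 0 := by
  refine le_antisymm (iSup_le fun p => ?_) bot_le
  have : A b p 0 = ∅ := by
    ext r
    simp [A]
  rw [this, measure_empty]

theorem D_add (v w : L) : D b (v + w) ≤ D b v + D b w := by
  refine iSup_le fun p => ?_
  have h : A b p (v + w) ⊆ A b p v ∪ A b p w := by
    rintro r ⟨h0, h1, h2⟩
    by_cases hv : S b p r v = 0
    · refine Or.inr ⟨h0, h1, fun hw => h2 ?_⟩
      rw [map_add, hv, hw, add_zero]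
    · exact Or.inl ⟨h0, h1, hv⟩
  refine (measure_mono h).trans ((measure_union_le _ _).trans ?_)
  exact add_le_add (le_iSup (fun p => volume (A b p v)) p) (le_iSup (fun p => volume (A b p w)) p)

theorem D_smul (c : K) (v : L) : D b (c • v) ≤ D b v := by
  refine iSup_mono fun p => measure_mono ?_
  rintro r ⟨h0, h1, h2⟩
  refine ⟨h0, h1, fun hv => h2 ?_⟩
  rw [map_smul, hv, smul_zero]

theorem D_neg (v : L) : D b (-v) = D b v := by
  refine le_antisymm ?_ ?_
  · have := D_smul b (-1) v
    rwa [neg_smul, one_smul] at this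
  · have := D_smul b (-1) (-v)
    rwa [neg_smul, one_smul, neg_neg] at this

/-- The norm. -/
noncomputable def nm : AddGroupSeminorm L where
  toFun v := (D b v).toReal
  map_zero' := by rw [D_zero, ENNReal.toReal_zero]
  add_le' v w := by
    rw [← ENNReal.toReal_add (D_ne_top b v) (D_ne_top b w)]
    exact ENNReal.toReal_mono (ENNReal.add_ne_top.2 ⟨D_ne_top b v, D_ne_top b w⟩) (D_add b v w)
  neg' v := by rw [D_neg]

theorem nm_apply (v : L) : nm b v = (D b v).toReal := rfl

theorem nm_smul (c : K) (v : L) : nm b (c • v) ≤ nm b v :=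
  ENNReal.toReal_mono (D_ne_top b v) (D_smul b c v)

/-- The basis is nonexpanding, also after multiplication by scalars. -/
theorem nm_sub_le (c : K) (x y : X) : nm b (c • b x - c • b y) ≤ dist x y := by
  classical
  rw [nm_apply]
  refine ENNReal.toReal_le_of_le_ofReal dist_nonneg (iSup_le fun p => ?_)
  have h : A b p (c • b x - c • b y) ⊆ Icc (min (dist x p) (dist y p)) (max (dist x p) (dist y p)) := by
    rintro r ⟨-, -, h2⟩
    rw [map_sub, S_smul_basis, S_smul_basis] at h2
    by_cases hx : dist x p < r
    · by_cases hy : dist y p < r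
      · rw [if_pos hx, if_pos hy, sub_self] at h2
        exact absurd rfl h2
      · exact ⟨(min_le_left _ _).trans hx.le, (not_lt.1 hy).trans (le_max_right _ _)⟩
    · by_cases hy : dist y p < r
      · exact ⟨(min_le_right _ _).trans hy.le, (not_lt.1 hx).trans (le_max_left _ _)⟩
      · rw [if_neg hx, if_neg hy, sub_self] at h2
        exact absurd rfl h2
  refine (measure_mono h).trans ?_
  rw [Real.volume_Icc]
  refine ENNReal.ofReal_le_ofReal ?_
  rw [max_sub_min_eq_abs, abs_sub_comm]
  exact abs_dist_sub_le x y p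

/-- The lower bound for the norm. -/
theorem le_nm (v : L) (p : X) (δ : ℝ) (h0 : 0 < δ) (h1 : δ ≤ 1)
    (h : ∀ r, 0 < r → r < δ → S b p r v ≠ 0) : δ ≤ nm b v := by
  have h2 : Ioo 0 δ ⊆ A b p v := fun r hr => ⟨hr.1, hr.2.trans_le h1, h r hr.1 hr.2⟩
  have h3 : ENNReal.ofReal δ ≤ D b v := by
    have h4 := measure_mono (μ := volume) h2
    rw [Real.volume_Ioo, sub_zero] at h4
    exact h4.trans (le_iSup (fun p => volume (A b p v)) p)
  have h4 := ENNReal.toReal_mono (D_ne_top b v) h3
  rwa [ENNReal.toReal_ofReal h0.le] at h4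

theorem exists_sep (s : Finset X) :
    ∃ δ : ℝ, 0 < δ ∧ δ ≤ 1 ∧ ∀ p ∈ s, ∀ y ∈ s, y ≠ p → δ ≤ dist y p := by
  classical
  have h : ∀ᶠ δ in 𝓝[>] (0 : ℝ), δ ≤ 1 ∧ ∀ p ∈ s, ∀ y ∈ s, y ≠ p → δ ≤ dist y p := by
    refine Filter.Eventually.and ?_ ?_
    · exact nhdsWithin_le_nhds (Iic_mem_nhds one_pos)
    · rw [Filter.eventually_all_finset]
      intro p _
      rw [Filter.eventually_all_finset]
      intro y _
      by_cases hy : y = p
      · exact Eventually.of_forall fun _ h => absurd hy h
      · filter_upwards [nhdsWithin_le_nhds (Iic_mem_nhds (dist_pos.2 hy))] with δ hδ _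
        exact hδ
  obtain ⟨δ, h1, h2⟩ := (h.and self_mem_nhdsWithin).exists
  exact ⟨δ, h2, h1.1, h1.2⟩

/-- The elements supported on a fixed separated finite set have large norm. -/
theorem eq_zero_of_nm_lt (F : Finset X) (δ : ℝ) (h0 : 0 < δ) (h1 : δ ≤ 1)
    (hF : ∀ p ∈ F, ∀ y ∈ F, y ≠ p → δ ≤ dist y p) (v : L) (hv : ∀ x, x ∉ F → b.repr v x = 0)
    (h : nm b v < δ) : v = 0 := by
  classical
  by_contra hne
  have h2 : b.repr v ≠ 0 := fun h3 => hne (b.repr.map_eq_zero_iff.1 h3)
  obtain ⟨p, hp⟩ := Finsupp.support_nonempty_iff.2 h2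
  have hpv := Finsupp.mem_support_iff.1 hp
  have hsub : ∀ x ∈ (b.repr v).support, x ∈ F := by
    intro x hx
    by_contra hxF
    exact Finsupp.mem_support_iff.1 hx (hv x hxF)
  refine absurd (le_nm b v p δ h0 h1 fun r hr0 hrδ => ?_) (not_le.2 h)
  rw [S_apply, Finset.sum_eq_single p]
  · rwa [dist_self, if_pos hr0]
  · intro y hy hyp
    rw [if_neg (not_lt.2 (hrδ.le.trans (hF p (hsub p hp) y (hsub y hy) hyp)))]
  · intro h3
    exact absurd hp h3

theorem nm_pos (v : L) (hv : v ≠ 0) : 0 < nm b v := by
  obtain ⟨δ, h0, h1, hF⟩ := exists_sep (b.repr v).support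
  refine h0.trans_le (not_lt.1 fun h => hv ?_)
  exact eq_zero_of_nm_lt b _ δ h0 h1 hF v (fun x hx => Finsupp.notMem_support_iff.1 hx) h

/-- The structure of a normed group given by the norm. -/
@[reducible] noncomputable def sng : SeminormedAddCommGroup L := (nm b).toSeminormedAddCommGroup

/-- The coarser topology. -/
@[reducible] noncomputable def top0 : TopologicalSpace L :=
  (sng b).toPseudoMetricSpace.toUniformSpace.toTopologicalSpace

theorem dist_sng (v w : L) : @dist L (sng b).toPseudoMetricSpace.toDist v w = nm b (v - w) := by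
  let _ : SeminormedAddCommGroup L := sng b
  exact dist_eq_norm_sub v w

theorem tendsto_nm_top0 (v : L) : Tendsto (fun w => nm b (w - v)) (@nhds L (top0 b) v) (𝓝 0) := by
  let _ : SeminormedAddCommGroup L := sng b
  have h20 : Tendsto (fun w : L => w) (𝓝 v) (𝓝 v) := by exact tendsto_id
  have h2 : Tendsto (fun w : L => dist w v) (𝓝 v) (𝓝 0) := tendsto_iff_dist_tendsto_zero.1 h20
  simp only [dist_sng] at h2
  exact h2

theorem tls_top0 : @IsTLS K L _ _ _ (top0 b) := by
  let _ : SeminormedAddCommGroup L := sng b
  have hd : ∀ v w : L, dist v w = nm b (v - w) := dist_sng b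
  refine @IsTLS.mk K L _ _ _ (top0 b) ?_ ?_ ?_
  · have : T0Space L := by
      refine (t0Space_iff_inseparable L).2 fun v w h => ?_
      rw [Metric.inseparable_iff, hd] at h
      by_contra hne
      exact (nm_pos b (v - w) (sub_ne_zero.2 hne)).ne' h
    exact (inferInstance : T2Space L)
  · exact continuous_add
  · intro c
    refine (LipschitzWith.of_dist_le_mul (K := 1) fun v w => ?_).continuous
    rw [NNReal.coe_one, one_mul, hd, hd, ← smul_sub]
    exact nm_smul b c _

theorem continuous_basis : @Continuous X L _ (top0 b) b := by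
  let _ : SeminormedAddCommGroup L := sng b
  refine (LipschitzWith.of_dist_le_mul (K := 1) fun x y => ?_).continuous
  rw [NNReal.coe_one, one_mul, dist_sng]
  have := nm_sub_le b 1 x y
  rwa [one_smul, one_smul] at this

theorem embedding_basis [Nontrivial K] : @IsEmbedding X L _ (top0 b) b := by
  classical
  let _ : SeminormedAddCommGroup L := sng b
  have hind : IsInducing b := by
    rw [isInducing_iff_nhds]
    intro x
    refine le_antisymm ((continuous_basis b).tendsto x).le_comap ?_
    rw [(Metric.nhds_basis_ball (x := x)).ge_iff]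
    intro ε hε
    rw [mem_comap]
    refine ⟨Metric.ball (b x) (min ε 1), Metric.ball_mem_nhds _ (lt_min hε one_pos), ?_⟩
    intro y hy
    rw [mem_preimage, Metric.mem_ball] at hy
    rw [Metric.mem_ball]
    by_contra hcon
    rw [not_lt] at hcon
    have h1 : min ε 1 ≤ nm b (b y - b x) := by
      refine le_nm b _ y _ (lt_min hε one_pos) (min_le_right _ _) fun r hr0 hr1 => ?_
      have h2 := S_smul_basis b y r 1 y
      have h3 := S_smul_basis b y r 1 x
      rw [one_smul] at h2 h3
      rw [map_sub, h2, h3, dist_self, if_pos hr0, if_neg, sub_zero]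
      · exact one_ne_zero
      · rw [dist_comm]
        exact not_lt.2 ((hr1.le.trans (min_le_left _ _)).trans hcon)
    rw [← dist_sng b] at h1
    exact absurd hy (not_lt.2 h1)
  exact ⟨hind, b.injective⟩

/-! ### The main lemma -/

/-- The sets covering `L`. -/
def FF (n m : ℕ) : Set L :=
  {v | ∃ (q : Fin n → K) (z : Fin n → X), (∀ i j, i ≠ j → 1 / ((m : ℝ) + 1) ≤ dist (z i) (z j)) ∧
    (∀ i, q i ≠ 0) ∧ v = ∑ i, q i • b (z i)}

theorem mem_FF (v : L) : ∃ n m, v ∈ FF b n m := by
  classical
  let e := (b.repr v).support.equivFin.symm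
  obtain ⟨δ, h2, -, h1⟩ := exists_sep (b.repr v).support
  obtain ⟨m, hm⟩ := exists_nat_one_div_lt h2
  refine ⟨_, m, fun i => b.repr v (e i), fun i => (e i : X), ?_, ?_, ?_⟩
  · intro i j hij
    have : (e i : X) ≠ (e j : X) := fun h => hij (e.injective (Subtype.ext h))
    exact hm.le.trans (h1 _ (e j).2 _ (e i).2 this)
  · intro i
    exact Finsupp.mem_support_iff.1 (e i).2
  · conv_lhs => rw [← b.linearCombination_repr v, Finsupp.linearCombination_apply, Finsupp.sum]
    rw [← Finset.sum_coe_sort]
    exact (Equiv.sum_comp e (fun z : (b.repr v).support => b.repr v z • b z)).symm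

/-- The main lemma: the closed subsets of the pieces are closed in the coarser topology. -/
theorem isClosed_inter (t : TopologicalSpace L)
    (hs : ∀ (n : ℕ) (q : Fin n → K), @Continuous _ _ _ t fun z : Fin n → X => ∑ i, q i • b (z i))
    (n m : ℕ) (C : Set L) (hC : IsClosed[t] C) : IsClosed[top0 b] (C ∩ FF b n m) := by
  classical
  rw [@isClosed_iff_ultrafilter _ _ (top0 b)]
  intro v U hU hCU
  set s : (Fin n → K) × (Fin n → X) → L := fun a => ∑ i, a.1 i • b (a.2 i) with hsdef
  set SS : Set ((Fin n → K) × (Fin n → X)) :=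
    {a | (∀ i j, i ≠ j → 1 / ((m : ℝ) + 1) ≤ dist (a.2 i) (a.2 j)) ∧ ∀ i, a.1 i ≠ 0} with hSS
  have himg : s '' SS ∈ U := by
    refine Filter.mem_of_superset hCU ?_
    rintro w ⟨-, q, z, h1, h2, rfl⟩
    exact ⟨(q, z), ⟨h1, h2⟩, rfl⟩
  let V : Ultrafilter ((Fin n → K) × (Fin n → X)) := Ultrafilter.ofComapInfPrincipal himg
  have hVS : SS ∈ V := Ultrafilter.ofComapInfPrincipal_mem himg
  have hVU : Ultrafilter.map s V = U := Ultrafilter.ofComapInfPrincipal_eq_of_map himg
  have hpi : Tendsto (fun a => nm b (s a - v)) V (𝓝 0) := by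
    have h1 : Tendsto (fun w => nm b (w - v)) (U : Filter L) (𝓝 0) :=
      (tendsto_nm_top0 b v).mono_left hU
    rw [← hVU] at h1
    exact h1
  have hm : 0 < 1 / ((m : ℝ) + 1) := by positivity
  have hex : ∀ i, ∃ y : X, Tendsto (fun a : (Fin n → K) × (Fin n → X) => a.2 i) V (𝓝 y) := by
    intro i
    by_contra hcon
    push Not at hcon
    have h1 : ∀ y : X, ∃ ε > 0, ∀ᶠ a in (V : Filter ((Fin n → K) × (Fin n → X))),
        ε ≤ dist (a.2 i) y := by
      intro y
      have h2 := hcon y
      rw [Metric.tendsto_nhds] at h2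
      push Not at h2
      obtain ⟨ε, hε, h3⟩ := h2
      exact ⟨ε, hε, h3⟩
    choose ε hε hεV using h1
    have hδ : ∀ᶠ δ in 𝓝[>] (0 : ℝ), (δ ≤ 1 ∧ δ ≤ 1 / ((m : ℝ) + 1)) ∧
        ∀ y ∈ (b.repr v).support, δ ≤ ε y := by
      have e1 : ∀ᶠ δ in 𝓝[>] (0 : ℝ), δ ≤ 1 := nhdsWithin_le_nhds (Iic_mem_nhds one_pos)
      have e2 : ∀ᶠ δ in 𝓝[>] (0 : ℝ), δ ≤ 1 / ((m : ℝ) + 1) :=
        nhdsWithin_le_nhds (Iic_mem_nhds hm)
      refine (e1.and e2).and ?_
      rw [Filter.eventually_all_finset]
      intro y _
      exact nhdsWithin_le_nhds (Iic_mem_nhds (hε y))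
    obtain ⟨δ, ⟨⟨hδ1, hδm⟩, hδy⟩, hδ0⟩ := (hδ.and self_mem_nhdsWithin).exists
    replace hδ0 : 0 < δ := hδ0
    have h2 : ∀ᶠ a in (V : Filter ((Fin n → K) × (Fin n → X))), nm b (s a - v) < δ :=
      hpi.eventually (gt_mem_nhds hδ0)
    have h3 : ∀ᶠ a in (V : Filter ((Fin n → K) × (Fin n → X))),
        ∀ y ∈ (b.repr v).support, ε y ≤ dist (a.2 i) y := by
      rw [Filter.eventually_all_finset]
      intro y _
      exact hεV y
    obtain ⟨a, ⟨hz1, hz2⟩, hz3, hz4⟩ := ((h2.and h3).and hVS).exists
    refine absurd (le_nm b (s a - v) (a.2 i) δ hδ0 hδ1 fun r hr0 hr1 => ?_) (not_le.2 hz1)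
    have h5 : S b (a.2 i) r v = 0 := by
      rw [S_apply]
      refine Finset.sum_eq_zero fun y hy => ?_
      rw [if_neg]
      rw [dist_comm]
      exact not_lt.2 (hr1.le.trans ((hδy y hy).trans (hz2 y hy)))
    have h6 : S b (a.2 i) r (s a) = a.1 i := by
      rw [hsdef]
      simp only
      rw [map_sum, Finset.sum_eq_single i]
      · rw [S_smul_basis, dist_self, if_pos hr0]
      · intro j _ hji
        rw [S_smul_basis, if_neg]
        exact not_lt.2 (hr1.le.trans (hδm.trans (hz3 j i hji)))
      · intro h
        exact absurd (Finset.mem_univ i) h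
    rw [map_sub, h5, h6, sub_zero]
    exact hz4 i
  choose y hy using hex
  have hzy : Tendsto (fun a : (Fin n → K) × (Fin n → X) => a.2) V (𝓝 y) := tendsto_pi_nhds.2 hy
  have hsep : ∀ i j, i ≠ j → 1 / ((m : ℝ) + 1) ≤ dist (y i) (y j) := by
    intro i j hij
    refine ge_of_tendsto ((hy i).dist (hy j)) ?_
    filter_upwards [hVS] with a ha
    exact ha.1 i j hij
  have hyinj : ∀ i j, i ≠ j → y i ≠ y j := fun i j hij h => by
    have h1 := hsep i j hij
    rw [h, dist_self] at h1
    exact absurd hm (not_lt.2 h1)
  -- the coefficients are eventually constant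
  obtain ⟨δ, hδ0, hδ1, hδ⟩ := exists_sep (Finset.univ.image y ∪ (b.repr v).support)
  have hlim : Tendsto (fun a => nm b (s a - v) + ∑ i, dist (y i) (a.2 i))
      (V : Filter ((Fin n → K) × (Fin n → X))) (𝓝 0) := by
    have h1 : Tendsto (fun a : (Fin n → K) × (Fin n → X) => ∑ i, dist (y i) (a.2 i)) V (𝓝 0) := by
      have h2 := tendsto_finsetSum Finset.univ fun i (_ : i ∈ (Finset.univ : Finset (Fin n))) =>
        (tendsto_const_nhds (x := y i)).dist (hy i)
      simpa using h2
    have h2 := hpi.add h1
    rwa [add_zero] at h2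
  have hev : ∀ᶠ a in (V : Filter ((Fin n → K) × (Fin n → X))), ∑ i, a.1 i • b (y i) = v := by
    filter_upwards [hlim.eventually (gt_mem_nhds hδ0)] with a ha
    rw [← sub_eq_zero]
    refine eq_zero_of_nm_lt b _ δ hδ0 hδ1 hδ _ ?_ (lt_of_le_of_lt ?_ ha)
    · intro x hx
      rw [Finset.mem_union, not_or] at hx
      have h1 : b.repr v x = 0 := Finsupp.notMem_support_iff.1 hx.2
      rw [map_sub, Finsupp.sub_apply, h1, sub_zero, map_sum, Finsupp.finsetSum_apply]
      refine Finset.sum_eq_zero fun i _ => ?_
      rw [map_smul, b.repr_self, Finsupp.smul_apply, Finsupp.single_eq_of_ne, smul_zero]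
      exact fun h => hx.1 (Finset.mem_image.2 ⟨i, Finset.mem_univ i, h.symm⟩)
    · have h1 : ∑ i, a.1 i • b (y i) - v = (s a - v) + ∑ i, (a.1 i • b (y i) - a.1 i • b (a.2 i)) := by
        rw [Finset.sum_sub_distrib, hsdef]
        simp only
        abel
      rw [h1]
      refine (map_add_le_add (nm b) _ _).trans (add_le_add le_rfl ?_)
      refine (Finset.le_sum_of_subadditive (nm b) (map_zero (nm b)).le
        (fun x y => map_add_le_add (nm b) x y) Finset.univ _).trans ?_
      exact Finset.sum_le_sum fun i _ => nm_sub_le b (a.1 i) (y i) (a.2 i)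
  set q0 : Fin n → K := fun i => b.repr v (y i) with hq0
  have hq : ∀ᶠ a in (V : Filter ((Fin n → K) × (Fin n → X))), a.1 = q0 := by
    filter_upwards [hev] with a ha
    funext i
    rw [hq0]
    simp only
    rw [← ha, map_sum, Finsupp.finsetSum_apply, Finset.sum_eq_single i]
    · rw [map_smul, b.repr_self, Finsupp.smul_apply, Finsupp.single_eq_same, smul_eq_mul, mul_one]
    · intro j _ hji
      rw [map_smul, b.repr_self, Finsupp.smul_apply, Finsupp.single_eq_of_ne, smul_zero]
      exact hyinj i j hji.symm
    · intro h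
      exact absurd (Finset.mem_univ i) h
  obtain ⟨a0, ⟨ha1, ha2⟩, ha3⟩ := ((hev.and hq).and hVS).exists
  have hv : v = ∑ i, q0 i • b (y i) := by rw [← ha1, ha2]
  have hsy : Tendsto s V (@nhds _ t v) := by
    have h1 : Tendsto (fun a : (Fin n → K) × (Fin n → X) => ∑ i, q0 i • b (a.2 i)) V
        (@nhds _ t (∑ i, q0 i • b (y i))) :=
      ((@Continuous.tendsto _ _ _ t _ (hs n q0) y)).comp hzy
    rw [← hv] at h1
    refine h1.congr' ?_
    filter_upwards [hq] with a ha
    rw [hsdef]
    simp only
    rw [ha]
  have hUt : (U : Filter L) ≤ @nhds _ t v := by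
    rw [← hVU]
    exact hsy
  refine ⟨?_, q0, y, hsep, ?_, hv⟩
  · exact (@isClosed_iff_ultrafilter _ _ t).1 hC v U hUt
      (Filter.mem_of_superset hCU inter_subset_left)
  · intro i
    rw [← ha2]
    exact ha3.2 i

/-- The paracompactness theorem for a regular topology finer than `top0`. -/
theorem paracompact (t : TopologicalSpace L) (hreg : @RegularSpace L t)
    (hs : ∀ (n : ℕ) (q : Fin n → K), @Continuous _ _ _ t fun z : Fin n → X => ∑ i, q i • b (z i))
    (hle : t ≤ top0 b) : @ParacompactSpace L t := by
  refine paracompact_of_coarser t (top0 b) hreg hle ?_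
    (fun k => FF b (Nat.unpair k).1 (Nat.unpair k).2) ?_ ?_
  · exact @Metric.instParacompactSpace L (sng b).toPseudoMetricSpace.toPseudoEMetricSpace
  · intro v
    obtain ⟨n, m, h⟩ := mem_FF b v
    refine ⟨Nat.pair n m, ?_⟩
    rw [Nat.unpair_pair]
    exact h
  · intro k C hC
    exact isClosed_inter b t hs _ _ C hC

end norm

/-! ### Paracompactness -/

theorem para {K : Type v} {X : Type u} {L : Type w} [Ring K] [TopologicalSpace X] [AddCommGroup L]
    [Module K L] [tL : TopologicalSpace L] {i : X → L} [TopologicalSpace.MetrizableSpace X]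
    (hfree : IsFree K X L i) : ParacompactSpace L := by
  classical
  let _ : MetricSpace X := TopologicalSpace.metrizableSpaceMetric X
  let b : Module.Basis X K L := Module.Basis.mk hfree.indep hfree.span.ge
  have hb : ∀ x, b x = i x := fun x => Module.Basis.mk_apply _ _ _
  have hb' : (b : X → L) = i := funext hb
  have _ := hfree.tls.t2
  have _ := hfree.tls.group
  have hreg : RegularSpace L := inferInstance
  have hs : ∀ (n : ℕ) (q : Fin n → K), Continuous fun z : Fin n → X => ∑ k, q k • b (z k) := by
    intro n q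
    refine continuous_finsetSum _ fun k _ => ?_
    simp only [hb]
    exact (hfree.tls.smul (q k)).comp (hfree.emb.continuous.comp (continuous_apply k))
  have hi1 : @Continuous X L _ (top0 b) i := hb' ▸ continuous_basis b
  obtain ⟨F, ⟨hF1, hF2⟩, -⟩ :=
    @IsFree.univ K X L _ _ _ _ tL i hfree L _ _ (top0 b) (tls_top0 b) i hi1
  have hFid : ∀ v, F v = v := by
    intro v
    have : F = LinearMap.id := by
      apply b.ext
      intro x
      rw [hb]
      exact hF2 x
    rw [this]
    rfl
  have hle : tL ≤ top0 b := by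
    rw [← continuous_id_iff_le]
    have : (F : L → L) = id := funext hFid
    rw [this] at hF1
    exact hF1
  exact paracompact b tL hreg hs hle

/-! ### Existence of the free object on a metrizable space -/

section existence

variable (K : Type v) [Ring K]

/-- The module topologies on the free module with basis `X` for which the inclusion of `X` is
continuous. -/
def TT (X : Type u) [TopologicalSpace X] : Set (TopologicalSpace (X →₀ K)) :=
  {t | @IsTopologicalAddGroup (X →₀ K) t _ ∧ (∀ r : K, @Continuous _ _ t t (fun v : X →₀ K => r • v)) ∧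
    @Continuous _ _ _ t (fun x : X => (Finsupp.single x 1 : X →₀ K))}

theorem induced_mem {X : Type u} [TopologicalSpace X] (E : Type w) [AddCommGroup E] [Module K E]
    [TopologicalSpace E] [IsTopologicalAddGroup E] (hE : ∀ r : K, Continuous fun v : E => r • v)
    (F : (X →₀ K) →ₗ[K] E) (hF : Continuous fun x => F (Finsupp.single x 1)) :
    TopologicalSpace.induced F inferInstance ∈ TT K X := by
  refine ⟨topologicalAddGroup_induced F, fun r => continuous_induced_rng.2 ?_,
    continuous_induced_rng.2 hF⟩
  have : (F ∘ fun v : X →₀ K => r • v) = (fun w : E => r • w) ∘ F := by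
    ext1 v
    show F (r • v) = r • F v
    rw [map_smul]
  rw [this]
  exact @Continuous.comp (X →₀ K) E E (TopologicalSpace.induced F inferInstance) _ _ F
    (fun w => r • w) (hE r) continuous_induced_dom

theorem exists_free [Nontrivial K] (X : Type u) [TopologicalSpace X]
    [TopologicalSpace.MetrizableSpace X] :
    ∃ (L : Type (max u v)) (_ : AddCommGroup L) (_ : Module K L) (_ : TopologicalSpace L)
      (i : X → L), IsFree K X L i := by
  classical
  let _ : MetricSpace X := TopologicalSpace.metrizableSpaceMetric X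
  let i : X → (X →₀ K) := fun x => Finsupp.single x 1
  let b : Module.Basis X K (X →₀ K) := Finsupp.basisSingleOne
  have hb : (b : X → (X →₀ K)) = i := Finsupp.coe_basisSingleOne
  have hlin : ∀ (E : Type (max u v)) [AddCommGroup E] [Module K E] [TopologicalSpace E]
      [IsTopologicalAddGroup E] (_ : ∀ r : K, Continuous fun v : E => r • v)
      (F : (X →₀ K) →ₗ[K] E), (Continuous fun x => F (Finsupp.single x 1)) →
        @Continuous _ _ (sInf (TT K X)) _ F := by
    intro E _ _ _ _ hE F hF
    exact continuous_sInf_dom (induced_mem K E hE F hF) continuous_induced_dom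
  have h0 : top0 b ∈ TT K X := by
    have h1 := tls_top0 b
    refine ⟨@IsTLS.group K (X →₀ K) _ _ _ (top0 b) h1, ?_, ?_⟩
    · exact @IsTLS.smul K (X →₀ K) _ _ _ (top0 b) h1
    · have h2 := continuous_basis b
      rw [hb] at h2
      exact h2
  have hid : @Continuous _ _ (sInf (TT K X)) (top0 b) (id : (X →₀ K) → (X →₀ K)) :=
    continuous_id_iff_le.2 (sInf_le h0)
  let t : TopologicalSpace (X →₀ K) := sInf (TT K X)
  have hgrp : IsTopologicalAddGroup (X →₀ K) := topologicalAddGroup_sInf fun t ht => ht.1
  have hsmul : ∀ r : K, Continuous (fun v : X →₀ K => r • v) := fun r =>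
    continuous_sInf_rng.2 fun s hs => continuous_sInf_dom hs (hs.2.1 r)
  have hi : Continuous i := continuous_sInf_rng.2 fun s hs => hs.2.2
  refine ⟨X →₀ K, inferInstance, inferInstance, t, i, ⟨⟨?_, continuous_add, hsmul⟩, ?_, ?_, ?_, ?_⟩⟩
  · have h2 : @T2Space (X →₀ K) (top0 b) := @IsTLS.t2 K (X →₀ K) _ _ _ (top0 b) (tls_top0 b)
    exact @T2Space.of_injective_continuous (X →₀ K) (X →₀ K) t (top0 b) h2 id
      Function.injective_id hid
  · have h2 := embedding_basis b
    rw [hb] at h2
    exact @IsEmbedding.of_comp X (X →₀ K) (X →₀ K) i id _ t (top0 b) hi hid h2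
  · have := (Finsupp.basisSingleOne (R := K) (ι := X)).linearIndependent
    rwa [Finsupp.coe_basisSingleOne] at this
  · have := (Finsupp.basisSingleOne (R := K) (ι := X)).span_eq
    rwa [Finsupp.coe_basisSingleOne] at this
  · intro E _ _ _ hE f hf
    have _ := hE.group
    refine ⟨Finsupp.linearCombination K f, ⟨?_, ?_⟩, ?_⟩
    · refine hlin E hE.smul _ ?_
      have : (fun x => Finsupp.linearCombination K f (Finsupp.single x 1)) = f := by
        ext1 x
        rw [Finsupp.linearCombination_single, one_smul]
      rw [this]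
      exact hf
    · intro x
      show Finsupp.linearCombination K f (Finsupp.single x 1) = f x
      rw [Finsupp.linearCombination_single, one_smul]
    · rintro G ⟨-, hG⟩
      apply Finsupp.basisSingleOne.ext
      intro x
      rw [Finsupp.coe_basisSingleOne, Finsupp.linearCombination_single, one_smul]
      exact hG x

end existence

/-- For every nontrivial ring `K` with the discrete topology and every metrizable space `X`, the free
topological linear space over `K` on `X` exists and it is paracompact (and Hausdorff). -/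
theorem result (K : Type v) [Ring K] [Nontrivial K] (X : Type u) [TopologicalSpace X]
    [TopologicalSpace.MetrizableSpace X] :
    (∃ (L : Type (max u v)) (_ : AddCommGroup L) (_ : Module K L) (_ : TopologicalSpace L)
      (i : X → L), IsFree K X L i) ∧
    ∀ (L : Type (max u v)) [AddCommGroup L] [Module K L] [TopologicalSpace L] (i : X → L),
      IsFree K X L i → T2Space L ∧ ParacompactSpace L :=
  ⟨exists_free K X, fun _ _ _ _ _ h => ⟨h.tls.t2, para h⟩⟩

end Pool.Agent.Results.MP_f94ac9_gt.DiscreteRings
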